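import Pool.Agent.P8H47.FP.Stm

/-! # Project FP, package ADJ: the elements of `M(r)`, `r² ∈ M` -/

set_option autoImplicit false

namespace Pool.Agent.P8H88.FP

open Pool.Agent.P8H47.FP

/-- the subfield `M + M r`, for `r² ∈ M`, `r ∉ M` -/
def uv {K : Type} [Field K] (M : Subfield K) (r : K) (h2 : r ^ 2 ∈ M) (hr : r ∉ M) : Subfield K where
  carrier := {x | ∃ u ∈ M, ∃ v ∈ M, x = u + v * r}
  mul_mem' := by
    rintro _ _ ⟨u, hu, v, hv, rfl⟩ ⟨u', hu', v', hv', rfl⟩
    refine ⟨u * u' + v * v' * r ^ 2, add_mem (mul_mem hu hu') (mul_mem (mul_mem hv hv') h2),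
      u * v' + v * u', add_mem (mul_mem hu hv') (mul_mem hv hu'), by ring⟩
  one_mem' := ⟨1, one_mem M, 0, zero_mem M, by ring⟩
  add_mem' := by
    rintro _ _ ⟨u, hu, v, hv, rfl⟩ ⟨u', hu', v', hv', rfl⟩
    exact ⟨u + u', add_mem hu hu', v + v', add_mem hv hv', by ring⟩
  zero_mem' := ⟨0, zero_mem M, 0, zero_mem M, by ring⟩
  neg_mem' := by
    rintro _ ⟨u, hu, v, hv, rfl⟩
    exact ⟨-u, neg_mem hu, -v, neg_mem hv, by ring⟩
  inv_mem' := by
    rintro _ ⟨u, hu, v, hv, rfl⟩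
    by_cases h0 : u + v * r = 0
    · rw [h0]; exact ⟨0, zero_mem M, 0, zero_mem M, by simp⟩
    have hm : u - v * r ≠ 0 := by
      intro hm
      by_cases hv0 : v = 0
      · apply h0; rw [hv0] at hm ⊢; simpa using hm
      · apply hr
        have : r = u / v := by field_simp; linear_combination -hm
        rw [this]; exact div_mem hu hv
    have hn : u ^ 2 - r ^ 2 * v ^ 2 ≠ 0 := by
      have : u ^ 2 - r ^ 2 * v ^ 2 = (u + v * r) * (u - v * r) := by ring
      rw [this]; exact mul_ne_zero h0 hm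
    have hnM : u ^ 2 - r ^ 2 * v ^ 2 ∈ M := sub_mem (pow_mem hu 2) (mul_mem h2 (pow_mem hv 2))
    refine ⟨u / (u ^ 2 - r ^ 2 * v ^ 2), div_mem hu hnM, -v / (u ^ 2 - r ^ 2 * v ^ 2), div_mem (neg_mem hv) hnM, ?_⟩
    rw [inv_eq_iff_eq_inv, eq_comm, inv_eq_iff_eq_inv, ← mul_eq_one_iff_eq_inv₀ h0]
    field_simp
    ring

theorem adj_ : S_ADJ := by
  intro K _ M r h2 x
  constructor
  · intro hx
    by_cases hr : r ∈ M
    · have hle : adj M r ≤ M := by
        unfold adj
        rw [Subfield.closure_le]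
        rintro y (hy | hy)
        · exact hy
        · rw [Set.mem_singleton_iff] at hy; rw [hy]; exact hr
      exact ⟨x, hle hx, 0, zero_mem M, by ring⟩
    · have hle : adj M r ≤ uv M r h2 hr := by
        unfold adj
        rw [Subfield.closure_le]
        rintro y (hy | hy)
        · exact ⟨y, hy, 0, zero_mem M, by ring⟩
        · rw [Set.mem_singleton_iff] at hy; rw [hy]; exact ⟨0, zero_mem M, 1, one_mem M, by ring⟩
      exact hle hx
  · rintro ⟨u, hu, v, hv, rfl⟩
    have h1 : ∀ y ∈ M, y ∈ adj M r := fun y hy => Subfield.subset_closure (Or.inl hy)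
    exact add_mem (h1 u hu) (mul_mem (h1 v hv) (Subfield.subset_closure (Or.inr rfl)))

end Pool.Agent.P8H88.FP
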