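import Pool.Agent.P8H47.FP.Stm

/-! # Project FP, package QE: the local-global principle goes up to `M(r)` -/

set_option autoImplicit false

namespace Pool.Agent.P8H88.FP

open Pool.Agent.P8H47.FP

section nm

variable {K : Type} [Field K]

theorem nm_mul {L : Subfield K} {x y z : K} (hx : x ∈ L) (h1 : Nm L x y) (h2 : Nm L x z) : Nm L x (y * z) := by
  obtain ⟨u, hu, v, hv, rfl⟩ := h1
  obtain ⟨u', hu', v', hv', rfl⟩ := h2
  exact ⟨u * u' + x * v * v', add_mem (mul_mem hu hu') (mul_mem (mul_mem hx hv) hv'), u * v' + v * u',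
    add_mem (mul_mem hu hv') (mul_mem hv hu'), by ring⟩

theorem nm_div {L : Subfield K} {x y z : K} (hx : x ∈ L) (hz : z ∈ L) (h0 : z ≠ 0) (h1 : Nm L x y) (h2 : Nm L x z) :
    Nm L x (y / z) := by
  obtain ⟨u, hu, v, hv, h⟩ := nm_mul hx h1 h2
  refine ⟨u / z, div_mem hu hz, v / z, div_mem hv hz, ?_⟩
  field_simp
  linear_combination h

theorem two_mem (L : Subfield K) : (2 : K) ∈ L := by
  have := add_mem (one_mem L) (one_mem L)
  rwa [one_add_one_eq_two] at this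

theorem nm_sq (K2 : (2 : K) ≠ 0) {L : Subfield K} {s y : K} (hs : s ∈ L) (hs0 : s ≠ 0) (hy : y ∈ L) :
    Nm L (s ^ 2) y := by
  refine ⟨(y + 1) / 2, div_mem (add_mem hy (one_mem L)) (two_mem L), (y - 1) / (2 * s),
    div_mem (sub_mem hy (one_mem L)) (mul_mem (two_mem L) hs), ?_⟩
  field_simp
  ring

theorem nm_swap (K2 : (2 : K) ≠ 0) {L : Subfield K} {x g : K} (hx : x ∈ L) (hg0 : g ≠ 0) (h : Nm L x g) : Nm L g x := by
  obtain ⟨u, hu, v, hv, h⟩ := h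
  by_cases hv0 : v = 0
  · have h' : g = u ^ 2 := by rw [h, hv0]; ring
    have hu0 : u ≠ 0 := by rintro rfl; apply hg0; rw [h']; ring
    rw [h']
    exact nm_sq K2 hu hu0 hx
  · refine ⟨u / v, div_mem hu hv, 1 / v, div_mem (one_mem L) hv, ?_⟩
    rw [h]
    field_simp
    ring

/-- uniqueness of the coefficients -/
theorem cf {L : Subfield K} {r : K} (hr : r ∉ L) {A B : K} (hA : A ∈ L) (hB : B ∈ L) (h : A + B * r = 0) : A = 0 ∧ B = 0 := by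
  have hB0 : B = 0 := by
    by_contra hB0
    apply hr
    have : r = -A / B := by field_simp; linear_combination h
    rw [this]; exact div_mem (neg_mem hA) hB
  rw [hB0] at h
  exact ⟨by simpa using h, hB0⟩

end nm

section glue

variable {K : Type} [Field K]

theorem nrm_ne {L : Subfield K} {r : K} (hr : r ∉ L) {A B : K} (hA : A ∈ L) (hB : B ∈ L) (h : A + B * r ≠ 0) :
    A ^ 2 - r ^ 2 * B ^ 2 ≠ 0 := by
  have : A ^ 2 - r ^ 2 * B ^ 2 = (A + B * r) * (A - B * r) := by ring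
  rw [this]
  refine mul_ne_zero h ?_
  intro h'
  obtain ⟨h1, h2⟩ := cf hr hA (neg_mem hB) (by linear_combination h')
  apply h
  rw [h1, neg_eq_zero.mp h2]; ring

theorem glue (K2 : (2 : K) ≠ 0) (hADJ : S_ADJ) {ι : Type} {M : Subfield K} {E : ι → Subfield K} (hle : ∀ i, M ≤ E i) (r : K)
    (σ : K ≃+* K) (h2 : r ^ 2 ∈ M) (hr : r ∉ M) (hσ : ∀ x ∈ M, σ x = x) (hσr : σ r = -r) {x₀ x₁ y₀ y₁ : K}
    (hx₀ : x₀ ∈ M) (hx₁ : x₁ ∈ M) (hy₀ : y₀ ∈ M) (hy₁ : y₁ ∈ M)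
    (h : ∀ q, Nm (famF E r σ q) (x₀ + x₁ * r) (y₀ + y₁ * r)) (i : ι) :
    ∃ u₀ ∈ E i, ∃ u₁ ∈ E i, ∃ v₀ ∈ E i, ∃ v₁ ∈ E i,
      y₀ + y₁ * r = (u₀ + u₁ * r) ^ 2 - (x₀ + x₁ * r) * (v₀ + v₁ * r) ^ 2 ∧
      y₀ - y₁ * r = (u₀ - u₁ * r) ^ 2 - (x₀ - x₁ * r) * (v₀ - v₁ * r) ^ 2 := by
  have hr0 : r ≠ 0 := by rintro rfl; exact hr (zero_mem M)
  have h2i : r ^ 2 ∈ E i := hle i h2
  have hF : Nm (adj (E i) r) (x₀ + x₁ * r) (y₀ + y₁ * r) := by
    have := h ⟨(i, false), by simp⟩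
    simpa [famF] using this
  obtain ⟨u, hu, v, hv, huv⟩ := hF
  rw [hADJ K (E i) r h2i] at hu hv
  obtain ⟨u₀, hu₀, u₁, hu₁, rfl⟩ := hu
  obtain ⟨v₀, hv₀, v₁, hv₁, rfl⟩ := hv
  by_cases hri : r ∈ E i
  · have hT : Nm ((E i).map (σ : K →+* K)) (x₀ + x₁ * r) (y₀ + y₁ * r) := by
      have := h ⟨(i, true), fun _ => hri⟩
      simpa [famF] using this
    obtain ⟨u', hu', v', hv', huv'⟩ := hT
    rw [Subfield.mem_map] at hu' hv'
    obtain ⟨u'', hu'', rfl⟩ := hu'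
    obtain ⟨v'', hv'', rfl⟩ := hv'
    have e : y₀ - y₁ * r = u'' ^ 2 - (x₀ - x₁ * r) * v'' ^ 2 := by
      apply σ.injective
      have e1 : σ (y₀ - y₁ * r) = y₀ + y₁ * r := by rw [map_sub, map_mul, hσ _ hy₀, hσ _ hy₁, hσr]; ring
      have e2 : σ (x₀ - x₁ * r) = x₀ + x₁ * r := by rw [map_sub, map_mul, hσ _ hx₀, hσ _ hx₁, hσr]; ring
      rw [e1, map_sub, map_mul, e2, map_pow, map_pow]
      exact huv'
    have hu : u₀ + u₁ * r ∈ E i := add_mem hu₀ (mul_mem hu₁ hri)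
    have hv : v₀ + v₁ * r ∈ E i := add_mem hv₀ (mul_mem hv₁ hri)
    refine ⟨((u₀ + u₁ * r) + u'') / 2, div_mem (add_mem hu hu'') (two_mem _),
      ((u₀ + u₁ * r) - u'') / (2 * r), div_mem (sub_mem hu hu'') (mul_mem (two_mem _) hri),
      ((v₀ + v₁ * r) + v'') / 2, div_mem (add_mem hv hv'') (two_mem _),
      ((v₀ + v₁ * r) - v'') / (2 * r), div_mem (sub_mem hv hv'') (mul_mem (two_mem _) hri), ?_, ?_⟩
    · have e1 : (u₀ + u₁ * r + u'') / 2 + (u₀ + u₁ * r - u'') / (2 * r) * r = u₀ + u₁ * r := by field_simp; ring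
      have e2 : (v₀ + v₁ * r + v'') / 2 + (v₀ + v₁ * r - v'') / (2 * r) * r = v₀ + v₁ * r := by field_simp; ring
      rw [e1, e2]; exact huv
    · have e1 : (u₀ + u₁ * r + u'') / 2 - (u₀ + u₁ * r - u'') / (2 * r) * r = u'' := by field_simp; ring
      have e2 : (v₀ + v₁ * r + v'') / 2 - (v₀ + v₁ * r - v'') / (2 * r) * r = v'' := by field_simp; ring
      rw [e1, e2]; exact e
  · refine ⟨u₀, hu₀, u₁, hu₁, v₀, hv₀, v₁, hv₁, huv, ?_⟩
    have hx₀' := hle i hx₀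
    have hx₁' := hle i hx₁
    have hy₀' := hle i hy₀
    have hy₁' := hle i hy₁
    obtain ⟨hA, hB⟩ := cf (L := E i) (r := r) hri
      (A := y₀ - (u₀ ^ 2 + r ^ 2 * u₁ ^ 2) + x₀ * (v₀ ^ 2 + r ^ 2 * v₁ ^ 2) + 2 * r ^ 2 * x₁ * v₀ * v₁)
      (B := y₁ - 2 * u₀ * u₁ + x₁ * (v₀ ^ 2 + r ^ 2 * v₁ ^ 2) + 2 * x₀ * v₀ * v₁)
      (by
        refine add_mem (add_mem (sub_mem hy₀' (add_mem (pow_mem hu₀ 2) (mul_mem h2i (pow_mem hu₁ 2))))
          (mul_mem hx₀' (add_mem (pow_mem hv₀ 2) (mul_mem h2i (pow_mem hv₁ 2)))))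
          (mul_mem (mul_mem (mul_mem (mul_mem (two_mem _) h2i) hx₁') hv₀) hv₁))
      (by
        refine add_mem (add_mem (sub_mem hy₁' (mul_mem (mul_mem (two_mem _) hu₀) hu₁))
          (mul_mem hx₁' (add_mem (pow_mem hv₀ 2) (mul_mem h2i (pow_mem hv₁ 2)))))
          (mul_mem (mul_mem (mul_mem (two_mem _) hx₀') hv₀) hv₁))
      (by linear_combination huv)
    linear_combination hA - r * hB

end glue

theorem qe : S_QE := by
  intro hQSUR hQA hQB hADJ K _ K2 ι M E hLG r σ h2 hr hσ hσr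
  have hr0 : r ≠ 0 := by rintro rfl; exact hr (zero_mem M)
  have ha0 : r ^ 2 ≠ 0 := pow_ne_zero 2 hr0
  have hMr : ∀ x ∈ M, x ∈ adj M r := fun x hx => (hADJ K M r h2 x).mpr ⟨x, hx, 0, zero_mem M, by ring⟩
  have hle : ∀ q, adj M r ≤ famF E r σ q := by
    rintro ⟨⟨i, b⟩, hb⟩ x hx
    obtain ⟨u, hu, v, hv, rfl⟩ := (hADJ K M r h2 x).mp hx
    cases b with
    | false =>
      have : u + v * r ∈ adj (E i) r :=
        (hADJ K (E i) r (hLG.le i h2) _).mpr ⟨u, hLG.le i hu, v, hLG.le i hv, rfl⟩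
      simpa [famF] using this
    | true =>
      have hri : r ∈ E i := hb rfl
      have : u + v * r ∈ (E i).map (σ : K →+* K) := by
        rw [Subfield.mem_map]
        refine ⟨u - v * r, sub_mem (hLG.le i hu) (mul_mem (hLG.le i hv) hri), ?_⟩
        change σ (u - v * r) = _
        rw [map_sub, map_mul, hσ _ hu, hσ _ hv, hσr]; ring
      simpa [famF] using this
  refine ⟨hle, ?_, ?_⟩
  · -- `sur`
    intro y hy
    -- the coefficients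
    have key : ∀ i, ∃ αβ : K × K, αβ.1 ∈ E i ∧ αβ.2 ∈ E i ∧ αβ.1 ^ 2 - r ^ 2 * αβ.2 ^ 2 ≠ 0 ∧
        y ⟨(i, false), by simp⟩ = αβ.1 + αβ.2 * r ∧
        ∀ hri : r ∈ E i, y ⟨(i, true), fun _ => hri⟩ = σ (αβ.1 - αβ.2 * r) := by
      intro i
      have h2i : r ^ 2 ∈ E i := hLG.le i h2
      obtain ⟨hp, hp0⟩ := hy ⟨(i, false), by simp⟩
      have hp : y ⟨(i, false), by simp⟩ ∈ adj (E i) r := by simpa [famF] using hp
      rw [hADJ K (E i) r h2i] at hp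
      obtain ⟨u, hu, v, hv, hp⟩ := hp
      by_cases hri : r ∈ E i
      · obtain ⟨hq, hq0⟩ := hy ⟨(i, true), fun _ => hri⟩
        have hq : y ⟨(i, true), fun _ => hri⟩ ∈ (E i).map (σ : K →+* K) := by simpa [famF] using hq
        rw [Subfield.mem_map] at hq
        obtain ⟨q', hq', hq⟩ := hq
        have hq : σ q' = y ⟨(i, true), fun _ => hri⟩ := hq
        have hq'0 : q' ≠ 0 := by
          rintro rfl
          apply hq0; rw [← hq, map_zero]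
        have hpE : u + v * r ∈ E i := add_mem hu (mul_mem hv hri)
        refine ⟨⟨((u + v * r) + q') / 2, ((u + v * r) - q') / (2 * r)⟩, div_mem (add_mem hpE hq') (two_mem _),
          div_mem (sub_mem hpE hq') (mul_mem (two_mem _) hri), ?_, ?_, ?_⟩
        · have : ((u + v * r + q') / 2) ^ 2 - r ^ 2 * ((u + v * r - q') / (2 * r)) ^ 2 = (u + v * r) * q' := by
            field_simp; ring
          change ((u + v * r + q') / 2) ^ 2 - r ^ 2 * ((u + v * r - q') / (2 * r)) ^ 2 ≠ 0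
          rw [this]
          exact mul_ne_zero (hp ▸ hp0) hq'0
        · rw [hp]; field_simp; ring
        · intro _
          rw [← hq]
          congr 1
          field_simp; ring
      · exact ⟨⟨u, v⟩, hu, hv, nrm_ne hri hu hv (hp ▸ hp0), hp, fun h => absurd h hri⟩
    choose αβ hα hβ hn hF hT using key
    obtain ⟨z₀, hz₀, z₁, hz₁, hz, hloc⟩ := hQSUR K K2 ι M E hLG (r ^ 2) h2 ha0 (fun i => (αβ i).1) (fun i => (αβ i).2)
      (fun i => ⟨hα i, hβ i, hn i⟩)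
    refine ⟨z₀ + z₁ * r, (hADJ K M r h2 _).mpr ⟨z₀, hz₀, z₁, hz₁, rfl⟩, ?_, ?_⟩
    · intro h0
      apply hz
      linear_combination (z₀ - z₁ * r) * h0
    · rintro ⟨⟨i, b⟩, hb⟩
      obtain ⟨γ, hγ, δ, hδ, hγδ, e0, e1⟩ := hloc i
      cases b with
      | false =>
        refine ⟨γ + δ * r, ?_, ?_, ?_⟩
        · have : γ + δ * r ∈ adj (E i) r := (hADJ K (E i) r (hLG.le i h2) _).mpr ⟨γ, hγ, δ, hδ, rfl⟩
          simpa [famF] using this
        · intro h0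
          apply hγδ
          linear_combination (γ - δ * r) * h0
        · have := hF i
          change z₀ + z₁ * r = y ⟨(i, false), _⟩ * _
          rw [this, e0, e1]; ring
      | true =>
        have hri : r ∈ E i := hb rfl
        refine ⟨σ (γ - δ * r), ?_, ?_, ?_⟩
        · have : σ (γ - δ * r) ∈ (E i).map (σ : K →+* K) := by
            rw [Subfield.mem_map]
            exact ⟨γ - δ * r, sub_mem hγ (mul_mem hδ hri), rfl⟩
          simpa [famF] using this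
        · rw [Ne, map_eq_zero_iff σ σ.injective]
          intro h0
          apply hγδ
          linear_combination (γ + δ * r) * h0
        · have := hT i hri
          change z₀ + z₁ * r = y ⟨(i, true), _⟩ * _
          rw [this, ← map_pow, ← map_mul]
          have e : z₀ + z₁ * r = σ (z₀ - z₁ * r) := by
            rw [map_sub, map_mul, hσ _ hz₀, hσ _ hz₁, hσr]; ring
          rw [e]
          congr 1
          rw [e0, e1]; ring
  · -- `loc`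
    intro x hx y hy hx0 hy0 hloc
    obtain ⟨x₀, hx₀, x₁, hx₁, rfl⟩ := (hADJ K M r h2 x).mp hx
    obtain ⟨y₀, hy₀, y₁, hy₁, rfl⟩ := (hADJ K M r h2 y).mp hy
    have hNx : x₀ ^ 2 - r ^ 2 * x₁ ^ 2 ≠ 0 := nrm_ne hr hx₀ hx₁ hx0
    have hNy : y₀ ^ 2 - r ^ 2 * y₁ ^ 2 ≠ 0 := nrm_ne hr hy₀ hy₁ hy0
    have hNxM : x₀ ^ 2 - r ^ 2 * x₁ ^ 2 ∈ M := sub_mem (pow_mem hx₀ 2) (mul_mem h2 (pow_mem hx₁ 2))
    have hNyM : y₀ ^ 2 - r ^ 2 * y₁ ^ 2 ∈ M := sub_mem (pow_mem hy₀ 2) (mul_mem h2 (pow_mem hy₁ 2))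
    have hxb : x₀ - x₁ * r ≠ 0 := by
      intro h0; apply hNx; linear_combination (x₀ + x₁ * r) * h0
    have hyb : y₀ - y₁ * r ≠ 0 := by
      intro h0; apply hNy; linear_combination (y₀ + y₁ * r) * h0
    set N := y₀ ^ 2 - r ^ 2 * y₁ ^ 2 with hN
    -- `y' = y⁻¹`, `c = x y'`
    have hp₀ : y₀ / N ∈ M := div_mem hy₀ hNyM
    have hp₁ : -y₁ / N ∈ M := div_mem (neg_mem hy₁) hNyM
    set p₀ := y₀ / N with hp₀d
    set p₁ := -y₁ / N with hp₁d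
    have hpy : (p₀ + p₁ * r) * (y₀ + y₁ * r) = 1 := by
      rw [hp₀d, hp₁d]; field_simp; rw [hN]; ring
    have hpyb : (p₀ - p₁ * r) * (y₀ - y₁ * r) = 1 := by
      rw [hp₀d, hp₁d]; field_simp; rw [hN]; ring
    have hc₀ : x₀ * p₀ + r ^ 2 * x₁ * p₁ ∈ M := add_mem (mul_mem hx₀ hp₀) (mul_mem (mul_mem h2 hx₁) hp₁)
    have hc₁ : x₀ * p₁ + x₁ * p₀ ∈ M := add_mem (mul_mem hx₀ hp₁) (mul_mem hx₁ hp₀)
    set c₀ := x₀ * p₀ + r ^ 2 * x₁ * p₁ with hc₀d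
    set c₁ := x₀ * p₁ + x₁ * p₀ with hc₁d
    have hcx : c₀ + c₁ * r = (x₀ + x₁ * r) * (p₀ + p₁ * r) := by rw [hc₀d, hc₁d]; ring
    have hcxb : c₀ - c₁ * r = (x₀ - x₁ * r) * (p₀ - p₁ * r) := by rw [hc₀d, hc₁d]; ring
    have hp0 : p₀ + p₁ * r ≠ 0 := left_ne_zero_of_mul_eq_one hpy
    have hNp : p₀ ^ 2 - r ^ 2 * p₁ ^ 2 ≠ 0 := nrm_ne hr hp₀ hp₁ hp0
    have hNc : c₀ ^ 2 - r ^ 2 * c₁ ^ 2 ≠ 0 := nrm_ne hr hc₀ hc₁ (by rw [hcx]; exact mul_ne_zero hx0 hp0)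
    have hQ := hQA K K2 ι M E hLG (r ^ 2) h2 p₀ hp₀ p₁ hp₁ c₀ hc₀ c₁ hc₁ hNp hNc (by
      intro i
      obtain ⟨u₀, hu₀, u₁, hu₁, v₀, hv₀, v₁, hv₁, e, eb⟩ := glue K2 hADJ hLG.le r σ h2 hr hσ hσr hx₀ hx₁ hy₀ hy₁ hloc i
      refine ⟨u₀, hu₀, u₁, hu₁, v₀, hv₀, v₁, hv₁, ?_, ?_⟩
      · rintro ⟨rfl, rfl, rfl, rfl⟩
        apply hy0; rw [e]; ring
      · have h2r : (2 * r) ≠ 0 := mul_ne_zero K2 hr0
        apply mul_left_cancel₀ h2r
        unfold R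
        linear_combination -(p₀ + p₁ * r) * e + hpy - (v₀ + v₁ * r) ^ 2 * hcx
          + (p₀ - p₁ * r) * eb - hpyb + (v₀ - v₁ * r) ^ 2 * hcxb)
    obtain ⟨u₀, hu₀, u₁, hu₁, v₀, hv₀, v₁, hv₁, hne, hR⟩ := hQ
    have hu : u₀ + u₁ * r ∈ adj M r := (hADJ K M r h2 _).mpr ⟨u₀, hu₀, u₁, hu₁, rfl⟩
    have hv : v₀ + v₁ * r ∈ adj M r := (hADJ K M r h2 _).mpr ⟨v₀, hv₀, v₁, hv₁, rfl⟩
    set g := p₀ * (u₀ ^ 2 + r ^ 2 * u₁ ^ 2) + 2 * r ^ 2 * p₁ * u₀ * u₁ -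
      (c₀ * (v₀ ^ 2 + r ^ 2 * v₁ ^ 2) + 2 * r ^ 2 * c₁ * v₀ * v₁) with hg
    have hgM : g ∈ M := by
      rw [hg]
      refine sub_mem (add_mem (mul_mem hp₀ (add_mem (pow_mem hu₀ 2) (mul_mem h2 (pow_mem hu₁ 2)))) ?_)
        (add_mem (mul_mem hc₀ (add_mem (pow_mem hv₀ 2) (mul_mem h2 (pow_mem hv₁ 2)))) ?_)
      · exact mul_mem (mul_mem (mul_mem (mul_mem (two_mem _) h2) hp₁) hu₀) hu₁
      · exact mul_mem (mul_mem (mul_mem (mul_mem (two_mem _) h2) hc₁) hv₀) hv₁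
    have hgy : g * (y₀ + y₁ * r) = (u₀ + u₁ * r) ^ 2 - (x₀ + x₁ * r) * (v₀ + v₁ * r) ^ 2 := by
      have e1 : g = (p₀ + p₁ * r) * ((u₀ + u₁ * r) ^ 2 - (x₀ + x₁ * r) * (v₀ + v₁ * r) ^ 2) := by
        unfold R at hR
        rw [hg]
        linear_combination -(v₀ + v₁ * r) ^ 2 * hcx - r * hR
      rw [e1]
      linear_combination ((u₀ + u₁ * r) ^ 2 - (x₀ + x₁ * r) * (v₀ + v₁ * r) ^ 2) * hpy
    by_cases hg0 : g = 0
    · -- `x` is a square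
      have hv0 : v₀ + v₁ * r ≠ 0 := by
        intro hv0
        obtain ⟨hv00, hv10⟩ := cf hr hv₀ hv₁ hv0
        have hu0 : u₀ + u₁ * r = 0 := by
          rw [hg0, hv0] at hgy
          have : (u₀ + u₁ * r) ^ 2 = 0 := by linear_combination -hgy
          exact pow_eq_zero_iff (two_ne_zero) |>.mp this
        obtain ⟨hu00, hu10⟩ := cf hr hu₀ hu₁ hu0
        exact hne ⟨hu00, hu10, hv00, hv10⟩
      have hxs : x₀ + x₁ * r = ((u₀ + u₁ * r) / (v₀ + v₁ * r)) ^ 2 := by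
        rw [hg0] at hgy
        rw [div_pow, eq_div_iff (pow_ne_zero 2 hv0)]
        linear_combination hgy
      have hs0 : (u₀ + u₁ * r) / (v₀ + v₁ * r) ≠ 0 := by
        intro h0; apply hx0; rw [hxs, h0]; ring
      rw [hxs]
      exact nm_sq K2 (div_mem hu hv) hs0 hy
    · -- `g ≠ 0`
      have hlocg : ∀ q, Nm (famF E r σ q) (g + 0 * r) (x₀ + x₁ * r) := by
        intro q
        have e : g + 0 * r = (g * (y₀ + y₁ * r)) / (y₀ + y₁ * r) := by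
          rw [zero_mul, add_zero, mul_div_cancel_right₀ _ hy0]
        rw [e]
        refine nm_swap K2 (hle q hx) ?_ ?_
        · rw [← e]; simpa using hg0
        · exact nm_div (hle q hx) (hle q hy) hy0 ⟨_, hle q hu, _, hle q hv, hgy⟩ (hloc q)
      have hNr := hQB K K2 ι M E hLG (r ^ 2) h2 ha0 g hgM hg0 x₀ hx₀ x₁ hx₁ hNx (by
        intro i
        obtain ⟨s₀, hs₀, s₁, hs₁, t₀, ht₀, t₁, ht₁, e, eb⟩ :=
          glue K2 hADJ hLG.le r σ h2 hr hσ hσr hgM (zero_mem M) hx₀ hx₁ hlocg i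
        refine ⟨s₀, hs₀, s₁, hs₁, t₀, ht₀, t₁, ht₁, ?_, ?_⟩
        · apply mul_left_cancel₀ K2
          linear_combination e + eb
        · apply mul_left_cancel₀ (mul_ne_zero K2 hr0)
          linear_combination e - eb)
      obtain ⟨s₀, hs₀, s₁, hs₁, t₀, ht₀, t₁, ht₁, e0, e1⟩ := hNr
      have hs : s₀ + s₁ * r ∈ adj M r := (hADJ K M r h2 _).mpr ⟨s₀, hs₀, s₁, hs₁, rfl⟩
      have ht : t₀ + t₁ * r ∈ adj M r := (hADJ K M r h2 _).mpr ⟨t₀, ht₀, t₁, ht₁, rfl⟩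
      have hgx : Nm (adj M r) g (x₀ + x₁ * r) :=
        ⟨s₀ + s₁ * r, hs, t₀ + t₁ * r, ht, by linear_combination e0 + r * e1⟩
      have hxg : Nm (adj M r) (x₀ + x₁ * r) g := nm_swap K2 (hMr g hgM) hx0 hgx
      have := nm_div hx (hMr g hgM) hg0 ⟨_, hu, _, hv, hgy⟩ hxg
      have e : g * (y₀ + y₁ * r) / g = y₀ + y₁ * r := by field_simp
      rwa [e] at this

end Pool.Agent.P8H88.FP
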