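import Pool.Agent.P8H47.FP.Stm

/-! # Project FP, package STEP: the local-global principle goes up, in terms of groups -/

set_option autoImplicit false

namespace Pool.Agent.P8H88.FP

open Pool.Agent.P8H47.FP

variable {F K : Type} [Field F] [Field K] [Algebra F K]

theorem mem_Fx {H : Subgroup (K ≃ₐ[F] K)} {x : K} : x ∈ Fx H ↔ ∀ h ∈ H, h x = x := by
  unfold Fx
  rw [IntermediateField.mem_toSubfield, IntermediateField.mem_fixedField_iff]

theorem two_fx (H : Subgroup (K ≃ₐ[F] K)) : (2 : K) ∈ Fx H := by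
  rw [mem_Fx]; intro h _; exact map_ofNat h 2

theorem fx_stab (hADJ : S_ADJ) (K2 : (2 : K) ≠ 0) (H : Subgroup (K ≃ₐ[F] K)) (r : K) (h2 : r ^ 2 ∈ Fx H) (hr0 : r ≠ 0) :
    Fx (H ⊓ MulAction.stabilizer (K ≃ₐ[F] K) r) = adj (Fx H) r := by
  have hst : ∀ g : K ≃ₐ[F] K, g ∈ MulAction.stabilizer (K ≃ₐ[F] K) r ↔ g r = r := fun g => Iff.rfl
  ext x
  rw [hADJ K (Fx H) r h2]
  constructor
  · intro hx
    rw [mem_Fx] at hx
    by_cases hr : r ∈ Fx H
    · refine ⟨x, ?_, 0, zero_mem _, by ring⟩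
      rw [mem_Fx]
      intro h hh
      exact hx h ⟨hh, (hst h).mpr (mem_Fx.mp hr h hh)⟩
    · have hex : ∃ τ ∈ H, τ r ≠ r := by
        by_contra hcon
        push Not at hcon
        exact hr (mem_Fx.mpr hcon)
      obtain ⟨τ, hτ, hτr⟩ := hex
      have hpm : ∀ h ∈ H, h r = r ∨ h r = -r := by
        intro h hh
        have := mem_Fx.mp h2 h hh
        rw [map_pow] at this
        exact sq_eq_sq_iff_eq_or_eq_neg.mp this
      have hτr : τ r = -r := (hpm τ hτ).resolve_left hτr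
      have hτi : τ⁻¹ (-r) = r := by
        have : τ⁻¹ (τ r) = r := by rw [← AlgEquiv.mul_apply, inv_mul_cancel]; rfl
        rwa [hτr] at this
      have k1 : ∀ h ∈ H, h r = r → h x = x ∧ h (τ x) = τ x := by
        intro h hh hhr
        refine ⟨hx h ⟨hh, hhr⟩, ?_⟩
        have hm : τ⁻¹ * h * τ ∈ H ⊓ MulAction.stabilizer (K ≃ₐ[F] K) r := by
          refine Subgroup.mem_inf.mpr ⟨mul_mem (mul_mem (inv_mem hτ) hh) hτ, ?_⟩
          rw [hst]
          change τ⁻¹ (h (τ r)) = r
          rw [hτr, map_neg, hhr, hτi]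
        have := hx _ hm
        have e : τ ((τ⁻¹ * h * τ) x) = h (τ x) := by
          rw [← AlgEquiv.mul_apply, ← mul_assoc, ← mul_assoc, mul_inv_cancel, one_mul]; rfl
        rw [← e, this]
      have k2 : ∀ h ∈ H, h r = -r → h x = τ x ∧ h (τ x) = x := by
        intro h hh hhr
        constructor
        · have hm : τ⁻¹ * h ∈ H ⊓ MulAction.stabilizer (K ≃ₐ[F] K) r := by
            refine Subgroup.mem_inf.mpr ⟨mul_mem (inv_mem hτ) hh, ?_⟩
            rw [hst]
            change τ⁻¹ (h r) = r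
            rw [hhr, hτi]
          have := hx _ hm
          have e : τ ((τ⁻¹ * h) x) = h x := by
            rw [← AlgEquiv.mul_apply, ← mul_assoc, mul_inv_cancel, one_mul]
          rw [← e, this]
        · have hm : h * τ ∈ H ⊓ MulAction.stabilizer (K ≃ₐ[F] K) r := by
            refine Subgroup.mem_inf.mpr ⟨mul_mem hh hτ, ?_⟩
            rw [hst]
            change h (τ r) = r
            rw [hτr, map_neg, hhr, neg_neg]
          exact hx _ hm
      refine ⟨(x + τ x) / 2, ?_, (x - τ x) / (2 * r), ?_, ?_⟩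
      · rw [mem_Fx]
        intro h hh
        rw [map_div₀, map_add, map_ofNat]
        rcases hpm h hh with h1 | h1
        · rw [(k1 h hh h1).1, (k1 h hh h1).2]
        · rw [(k2 h hh h1).1, (k2 h hh h1).2, add_comm]
      · rw [mem_Fx]
        intro h hh
        rw [map_div₀, map_sub, map_mul, map_ofNat]
        rcases hpm h hh with h1 | h1
        · rw [(k1 h hh h1).1, (k1 h hh h1).2, h1]
        · rw [(k2 h hh h1).1, (k2 h hh h1).2, h1]
          field_simp
          ring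
      · field_simp; ring
  · rintro ⟨u, hu, v, hv, rfl⟩
    rw [mem_Fx]
    rintro h ⟨hh, hhr⟩
    have hhr : h r = r := hhr
    rw [map_add, map_mul, mem_Fx.mp hu h hh, mem_Fx.mp hv h hh, hhr]

theorem fx_conj (H : Subgroup (K ≃ₐ[F] K)) (σ : K ≃ₐ[F] K) :
    Fx (H.map (MulAut.conj σ).toMonoidHom) = (Fx H).map ((σ : K ≃+* K) : K →+* K) := by
  ext x
  rw [Subfield.mem_map, mem_Fx]
  constructor
  · intro hx
    refine ⟨σ⁻¹ x, ?_, ?_⟩
    · rw [mem_Fx]
      intro h hh
      have := hx (σ * h * σ⁻¹) ⟨h, hh, rfl⟩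
      have e : σ⁻¹ ((σ * h * σ⁻¹) x) = h (σ⁻¹ x) := by
        rw [← AlgEquiv.mul_apply, mul_assoc, ← mul_assoc, inv_mul_cancel, one_mul]; rfl
      rw [← e, this]
    · change σ (σ⁻¹ x) = x
      rw [← AlgEquiv.mul_apply, mul_inv_cancel]; rfl
  · rintro ⟨y, hy, rfl⟩ _ ⟨h, hh, rfl⟩
    change (σ * h * σ⁻¹) (σ y) = σ y
    rw [← AlgEquiv.mul_apply, mul_assoc, mul_assoc, inv_mul_cancel, mul_one, AlgEquiv.mul_apply, mem_Fx.mp hy h hh]

theorem step : S_STEP := by
  intro hADJ hQE F K _ _ _ K2 ι U H hHU hLG r σ h2 hσU hσr hr0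
  have hrU : r ∉ Fx U := by
    intro hr
    have := mem_Fx.mp hr σ hσU
    rw [hσr] at this
    have h0 : 2 * r = 0 := by linear_combination -this
    rcases mul_eq_zero.mp h0 with h | h
    · exact K2 h
    · exact hr0 h
  have hQ := hQE K K2 ι (Fx U) (fun i => Fx (H i)) hLG r (σ : K ≃+* K) h2 hrU (fun x hx => mem_Fx.mp hx σ hσU) hσr
  have e2 : (fun q => Fx (famG H r σ q)) = famF (fun i => Fx (H i)) r (σ : K ≃+* K) := by
    funext q
    obtain ⟨⟨i, b⟩, hb⟩ := q
    cases b with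
    | false =>
      have : Fx (H i ⊓ MulAction.stabilizer (K ≃ₐ[F] K) r) = adj (Fx (H i)) r := fx_stab hADJ K2 (H i) r (hLG.le i h2) hr0
      simpa [famF, famG] using this
    | true =>
      have := fx_conj (H i) σ
      simpa [famF, famG] using this
  rw [fx_stab hADJ K2 U r h2 hr0, e2]
  exact hQ

end Pool.Agent.P8H88.FP
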